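import Pool.Agent.N699.PC.Main

set_option autoImplicit false

open PowerSeries
open scoped PowerSeries.WithPiTopology

/-!
# MP_e258d6_nt: the congruences modulo 4 and 8

The integers `c(n)` are the coefficients of
`∑_{m ≥ 0} (-q^(2m+2); q²)_∞ q^(2m+1) / (q^(2m+1); q²)_∞²`.

The proof. `C(q) φ(-q)`, where `φ(-q) = ∑_{k ∈ ℤ} (-1)^k q^(k²)`, is the sum of
`(-1)^(y-1) sgn(j) q^(y² - 3 j² - 2 j)` over `y ≥ 1` and `|3 j + 1| ≤ y` (terms with `|3 j + 1| < y`
twice): the finite form of Jacobi's triple product and a telescoping recursion (a conjugate Bailey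
pair with partial theta functions). With `N = 3 n - 1` these are the solutions of `N = 3 y² - x²`
in a fundamental domain of the units of `ℤ[√3]`. Modulo 8 one has `1 / φ = 1 + 6 X + 4 X²` with
`φ = 1 + 2 X`, and `3 (y² + z²) - x²` does not represent the numbers `4^k (8 m + 1)`: all terms
vanish. The first family compares the numbers of solutions of `N = 3 y² - x²` and of
`N = 2 a² + 3 b²` modulo 2.
-/

namespace Pool.Agent.Results.MP_e258d6_nt.AllThreeFamilies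

/-- the generating function `∑_{m ≥ 0} (-q^(2m+2); q²)_∞ q^(2m+1) / (q^(2m+1); q²)_∞²`; the infinite
sum and products are limits in the product topology of `ℤ⟦X⟧`, and `invOfUnit f 1` is the inverse
of a series `f` with constant coefficient `1` -/
noncomputable def gen : ℤ⟦X⟧ :=
  ∑' m : ℕ, (∏' j : ℕ, (1 + X ^ (2 * m + 2 + 2 * j))) * X ^ (2 * m + 1) *
    (invOfUnit (∏' j : ℕ, (1 - X ^ (2 * m + 1 + 2 * j))) 1) ^ 2

/-- the coefficient `c(n)` of `q^n` -/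
noncomputable def c (n : ℕ) : ℤ := coeff n gen

/-- the products and the sum in `gen` converge, and `invOfUnit` is the inverse -/
theorem converges :
    (∀ m : ℕ, Multipliable fun j : ℕ => (1 : ℤ⟦X⟧) + X ^ (2 * m + 2 + 2 * j)) ∧
    (∀ m : ℕ, Multipliable fun j : ℕ => (1 : ℤ⟦X⟧) - X ^ (2 * m + 1 + 2 * j)) ∧
    (Summable fun m : ℕ => (∏' j : ℕ, ((1 : ℤ⟦X⟧) + X ^ (2 * m + 2 + 2 * j))) * X ^ (2 * m + 1) *
      (invOfUnit (∏' j : ℕ, (1 - X ^ (2 * m + 1 + 2 * j))) 1) ^ 2) ∧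
    (∀ m : ℕ, (∏' j : ℕ, ((1 : ℤ⟦X⟧) - X ^ (2 * m + 1 + 2 * j))) *
      invOfUnit (∏' j : ℕ, (1 - X ^ (2 * m + 1 + 2 * j))) 1 = 1) :=
  Pool.Agent.N699.PC.converges

theorem c_eq (n : ℕ) : c n = Pool.Agent.N699.PC.c n :=
  Pool.Agent.N699.PC.coeff_gen n

/-- the three families of congruences -/
theorem result : ∀ k n : ℕ, 1 ≤ k →
    (4 : ℤ) ∣ c (2 ^ (2 * k + 3) * n + (11 * 4 ^ k + 1) / 3) ∧
    (8 : ℤ) ∣ c (2 ^ (2 * k + 3) * n + (17 * 4 ^ k + 1) / 3) ∧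
    (4 : ℤ) ∣ c (2 ^ (2 * k + 4) * n + (38 * 4 ^ k + 1) / 3) := by
  intro k n hk
  rw [c_eq, c_eq, c_eq]
  exact Pool.Agent.N699.PC.t_ALL k n hk

end Pool.Agent.Results.MP_e258d6_nt.AllThreeFamilies
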